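import Pool.Agent.Lib_MP_58440c_pr.Main
import Pool.Agent.Lib_MP_58440c_pr.DetForm
import Pool.Agent.Lib_MP_58440c_pr.Conv5

/-!
# Extreme coherent systems on the Grothendieck branching graph: the classification

Let `0 < p < 1`. The first part certifies that `Gro p l` is the Grothendieck polynomial of the
problem file (determinantal formula, `det [x_j ^ (n - i)] = ∏_{i < j} (x_i - x_j)`). The second part:
a system `M` is an extreme coherent system if and only if it is a coherent system and
`∑_l M_n(l) G_l(z_1, …, z_n) / G_l(1^n) = Φ(z_1) ⋯ Φ(z_n)` on the closed polydisc, for some `Φ ∈ 𝓕`,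
i.e. `M = M^Φ`. So every extreme coherent system is some `M^Φ`, `Φ ∈ 𝓕` (Q1), and all the coherent
systems `M^Φ`, `Φ ∈ 𝓕`, are extreme.

Outline of the proof (see also `Lib_MP_58440c_pr/Blueprint.md`).
Forward. Extremality gives multiplicativity by a covariance argument (`mult_main`): for `z1 ≠ z2`
the covariances of `A(z) = G(z, x) / G(x)` under the conditioned chains are bounded by
`2 (T2 + T) / G`, and the weights `∑ 1/(j+1)` diverge; `Φ` then has a finite second moment
(`moments`). Typical partitions give, with the help of an FKG inequality, finite products close to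
`Φ` except for possibly negative small factors; these are removed by row and column operations.
Converse. For multiplicative `M` the same covariance bound gives mean square convergence of
`G_l(y) / G_l(1)` to `Φ(y_1) ⋯ Φ(y_k)`; hence `M₁ ≤ C M` coherent has the same generating functions.
-/

namespace Pool.Agent.Results.MP_58440c_pr.Classification

open Pool.Agent.GroB

theorem result (p : ℝ) (hp0 : 0 < p) (hp1 : p < 1) :
    (∀ (n : ℕ) (l : Fin n → ℕ), Antitone l → ∀ x : Fin n → ℂ,
      Gro (p : ℂ) l x * ∏ i, ∏ j ∈ Finset.Ioi i, (x i - x j) =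
        (Matrix.of fun i j : Fin n =>
          x j ^ (l i + (n - 1 - (i : ℕ))) * (1 - (p : ℂ) * x j) ^ (i : ℕ)).det) ∧
    ∀ M : (n : ℕ) → (Fin n → ℕ) → ℝ,
      M ∈ Set.extremePoints ℝ {M | Coherent p M} ↔
        Coherent p M ∧ ∃ Φ ∈ FF p, ∀ (n : ℕ) (z : Fin n → ℂ), (∀ i, ‖z i‖ ≤ 1) →
          HasSum (fun l : Fin n → ℕ =>
            (M n l : ℂ) * (Gro (p : ℂ) l z / Gro (p : ℂ) l (fun _ => 1))) (∏ i, Φ (z i)) :=
  ⟨fun n l hl x => det_form (p : ℂ) n l hl x, fun M =>
    ⟨fun hM => ⟨hM.1, main p hp0 hp1 M hM⟩, fun h => by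
      obtain ⟨hM, Φ, -, hid⟩ := h
      exact conv_main p hp0 hp1 M hM Φ hid⟩⟩

end Pool.Agent.Results.MP_58440c_pr.Classification
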